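import Pool.Agent.H29.LG.Targets

/-!
# PRMS: many small primes
-/

set_option autoImplicit false

open NumberField Height Finset Polynomial Pool.Agent.H24.RD Pool.Agent.H23.RDD Pool.Agent.H29.RQ
  Pool.Agent.H29.SX Pool.Agent.H29.LG

namespace Pool.Agent.H17.LG

private theorem pi_lower (k : ℕ) (hk : 1 ≤ k) : k ≤ Nat.primeCounting (64 * k ^ 2) := by
  have h := Chebyshev.pi_ge (64 * k ^ 2)
  have hkR : (1 : ℝ) ≤ k := by exact_mod_cast hk
  have hl2 := Real.log_two_gt_d9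
  have hx1 : (1 : ℝ) < 64 * (k : ℝ) ^ 2 := by nlinarith
  have hlx : 0 < Real.log (64 * (k : ℝ) ^ 2) := Real.log_pos hx1
  have e1 : Real.log (64 * (k : ℝ) ^ 2) = 2 * Real.log (8 * k) := by
    rw [show (64 : ℝ) * (k : ℝ) ^ 2 = (8 * k) ^ 2 by ring, Real.log_pow]
    push_cast
    ring
  have h1 : Real.log (8 * k) ≤ 8 * k - 1 := Real.log_le_sub_one_of_pos (by linarith)
  have h2 : Real.log (64 * (k : ℝ) ^ 2 + 1) ≤ Real.log (64 * (k : ℝ) ^ 2) + 1 := by
    have h3 : Real.log (64 * (k : ℝ) ^ 2 + 1) ≤ Real.log (64 * (k : ℝ) ^ 2 * 2) :=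
      Real.log_le_log (by positivity) (by linarith)
    have h4 : Real.log (64 * (k : ℝ) ^ 2 * 2) = Real.log (64 * (k : ℝ) ^ 2) + Real.log 2 :=
      Real.log_mul (by positivity) (by norm_num)
    have h5 := Real.log_two_lt_d9
    linarith
  push_cast at h
  rw [div_le_iff₀ hlx] at h
  by_contra hcon
  have h6 : Nat.primeCounting (64 * k ^ 2) ≤ k := by omega
  have h7 : (Nat.primeCounting (64 * k ^ 2) : ℝ) ≤ k := by exact_mod_cast h6
  have h8 : (Nat.primeCounting (64 * k ^ 2) : ℝ) * Real.log (64 * (k : ℝ) ^ 2) ≤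
      k * Real.log (64 * (k : ℝ) ^ 2) := mul_le_mul_of_nonneg_right h7 hlx.le
  have h9 : (k : ℝ) * Real.log (64 * (k : ℝ) ^ 2) ≤ k * (2 * (8 * k - 1)) := by
    rw [e1]
    exact mul_le_mul_of_nonneg_left (by linarith) (by linarith)
  nlinarith

/-- PRMS: many small primes -/
theorem pf_PRMS : T_PRMS := by
  refine ⟨64, fun A n => ?_⟩
  have h := pi_lower (A + n + 1) (by omega)
  obtain ⟨x, hx⟩ : ∃ x : ℕ, x = 64 * (A + n + 1) ^ 2 := ⟨_, rfl⟩
  rw [← hx] at h ⊢
  have h1 : (((range (x + 1)).filter Nat.Prime)).card = Nat.primeCounting x := by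
    rw [Nat.primeCounting, Nat.primeCounting', Nat.count_eq_card_filter_range]
  have h2 : ((range (x + 1)).filter Nat.Prime) ⊆
      ((range (x + 1)).filter fun p => p.Prime ∧ A < p) ∪ Ioc 0 A := by
    intro p hp
    rw [mem_filter] at hp
    rw [mem_union, mem_filter, mem_Ioc]
    by_cases hA : A < p
    · exact Or.inl ⟨hp.1, hp.2, hA⟩
    · exact Or.inr ⟨hp.2.pos, by omega⟩
  have h3 := (card_le_card h2).trans (card_union_le _ _)
  rw [h1, Nat.card_Ioc] at h3
  obtain ⟨P, hP, hc⟩ := exists_subset_card_eq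
    (s := (range (x + 1)).filter fun p => p.Prime ∧ A < p) (n := n) (by omega)
  refine ⟨P, hc, fun p hp => ?_⟩
  have h4 := hP hp
  rw [mem_filter, mem_range] at h4
  exact ⟨h4.2.1, h4.2.2, by omega⟩

end Pool.Agent.H17.LG
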