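import Pool.Agent.H29.LG.Targets

/-!
# UNK: a good prime which does not divide the level is unramified in the level field
-/

set_option autoImplicit false

open NumberField Height Finset Polynomial Pool.Agent.H24.RD Pool.Agent.H23.RDD Pool.Agent.H29.RQ
  Pool.Agent.H29.SX Pool.Agent.H29.LG IsDedekindDomain HeightOneSpectrum

namespace Pool.Agent.H17.LG

private theorem abv_eq {M : Type} [Field M] [NumberField M] (P : HeightOneSpectrum (𝓞 M)) (x : M) :
    (FinitePlace.mk P).1 x =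
      WithZeroMulInt.toNNReal (HeightOneSpectrum.absNorm_ne_zero P) (P.valuation M x) :=
  FinitePlace.norm_embedding' P x

private theorem mem_iff {M : Type} [Field M] [NumberField M] (P : HeightOneSpectrum (𝓞 M))
    (x : 𝓞 M) : (FinitePlace.mk P).1 (x : M) < 1 ↔ x ∈ P.asIdeal :=
  FinitePlace.norm_lt_one_iff_mem M P x

private theorem val_le {M : Type} [Field M] [NumberField M] (P : HeightOneSpectrum (𝓞 M)) (x : M)
    (h : (FinitePlace.mk P).1 x ≤ 1) : P.valuation M x ≤ 1 := by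
  rw [abv_eq] at h
  have h1 : (1 : NNReal) < (Ideal.absNorm P.asIdeal : NNReal) := by
    exact_mod_cast HeightOneSpectrum.one_lt_absNorm P
  have h2 : WithZeroMulInt.toNNReal (HeightOneSpectrum.absNorm_ne_zero P) (P.valuation M x) ≤
      WithZeroMulInt.toNNReal (HeightOneSpectrum.absNorm_ne_zero P) 1 := by
    rw [map_one]
    exact_mod_cast h
  exact (WithZeroMulInt.toNNReal_strictMono h1).le_iff_le.1 h2

private theorem zpow_rpow' {a : ℝ} (ha : 0 < a) (n : ℤ) (k : ℝ) : (a ^ n) ^ k = (a ^ k) ^ n := by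
  rw [← Real.rpow_intCast, ← Real.rpow_intCast, ← Real.rpow_mul ha.le, ← Real.rpow_mul ha.le,
    mul_comm]

/-- an automorphism in the inertia group moves the elements of absolute value `≤ 1` slightly -/
private theorem inert {F E : Type} [Field F] [NumberField F] [Field E] [NumberField E]
    [Algebra F E] (Q : HeightOneSpectrum (𝓞 E)) (hna : IsNonarchimedean (FinitePlace.mk Q).1)
    (σ : Gal(E/F)) (hσ : ∀ y : 𝓞 E, σ • y - y ∈ Q.asIdeal) (z : E)
    (hz : (FinitePlace.mk Q).1 z ≤ 1) : (FinitePlace.mk Q).1 (σ z - z) < 1 := by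
  obtain ⟨n, d, hnd⟩ := Q.exists_primeCompl_mul_eq_of_integer z (val_le Q z hz)
  have hd : (d : 𝓞 E) ∉ Q.asIdeal := d.2
  have hn1 := (mem_iff Q _).2 (hσ n)
  have hd1 := (mem_iff Q _).2 (hσ d)
  have hσd : (σ • (d : 𝓞 E)) ∉ Q.asIdeal := fun h => hd (by
    have := Q.asIdeal.sub_mem h (hσ d)
    rwa [sub_sub_cancel] at this)
  have hσd1 : 1 ≤ (FinitePlace.mk Q).1 ((σ • (d : 𝓞 E) : 𝓞 E) : E) :=
    not_lt.1 fun h => hσd ((mem_iff Q _).1 h)
  have e1 : ((σ • (d : 𝓞 E) : 𝓞 E) : E) = σ ((d : 𝓞 E) : E) := rfl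
  have e2 : ((σ • (d : 𝓞 E) - (d : 𝓞 E) : 𝓞 E) : E) = σ ((d : 𝓞 E) : E) - ((d : 𝓞 E) : E) := rfl
  have e3 : ((σ • n - n : 𝓞 E) : E) = σ (n : E) - (n : E) := rfl
  rw [e1] at hσd1
  rw [e2] at hd1
  rw [e3] at hn1
  have hnd' : z * ((d : 𝓞 E) : E) = (n : E) := hnd
  have e4 : (σ z - z) * σ ((d : 𝓞 E) : E) = (σ (n : E) - (n : E)) +
      -(z * (σ ((d : 𝓞 E) : E) - ((d : 𝓞 E) : E))) := by
    rw [← hnd', map_mul]
    ring
  have h5 : (FinitePlace.mk Q).1 (σ z - z) * (FinitePlace.mk Q).1 (σ ((d : 𝓞 E) : E)) < 1 := by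
    rw [← map_mul, e4]
    refine (hna _ _).trans_lt (max_lt hn1 ?_)
    rw [AbsoluteValue.map_neg, map_mul]
    exact (mul_le_of_le_one_left (AbsoluteValue.nonneg _ _) hz).trans_lt hd1
  exact (le_mul_of_one_le_right (AbsoluteValue.nonneg _ _) hσd1).trans_lt h5

private theorem core (h1 : T_VB) (h2 : T_RS) (F E : Type) [Field F] [NumberField F] [Field E]
    [NumberField E] [Algebra F E] [IsGalois F E] (r : ℕ) (γ : Fin r → F) (p : ℕ)
    (hp : GoodP F γ p) (N K : ℕ) (hN : 0 < N) (hKN : K ∣ N) (hpN : ¬ p ∣ N)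
    (hadj : IntermediateField.adjoin F {z : E | z ^ N = 1 ∨
      ∃ i, z ^ K = algebraMap F E (γ i)} = ⊤)
    (v : FinitePlace E) (hv : v.1 (p : E) < 1) (x : E) (hx : x ≠ 0) :
    ∃ n : ℤ, v.1 x = v.1 (p : E) ^ n := by
  obtain ⟨Q, rfl⟩ : ∃ Q : HeightOneSpectrum (𝓞 E), FinitePlace.mk Q = v :=
    ⟨v.maximalIdeal, v.mk_maximalIdeal⟩
  obtain ⟨hna, hp0, -, -, hroot, -⟩ := h1 E p hp.1 (FinitePlace.mk Q) hv
  obtain ⟨v0, k, hk, hvk⟩ := h2 F E (FinitePlace.mk Q)
  have hpF : (FinitePlace.mk Q).1 (p : E) = v0.1 (p : F) ^ k := by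
    rw [← hvk, map_natCast (algebraMap F E)]
  have hv0 : v0.1 (p : F) < 1 := by
    by_contra hcon
    rw [hpF] at hv
    exact absurd hv (not_lt.2 (Real.one_le_rpow (not_lt.1 hcon) hk.le))
  have hp0F : 0 < v0.1 (p : F) := by
    refine v0.1.pos ?_
    exact_mod_cast hp.1.ne_zero
  obtain ⟨hval, hγ⟩ := hp.2 v0 hv0
  have hK : 0 < K := Nat.pos_of_dvd_of_pos hKN hN
  -- the inertia group is trivial
  have hin : Nat.card (Q.asIdeal.inertia Gal(E/F)) = 1 := by
    rw [Subgroup.card_eq_one, Subgroup.eq_bot_iff_forall]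
    intro σ hσ
    have hσ' : ∀ y : 𝓞 E, σ • y - y ∈ Q.asIdeal := fun y => hσ y
    have key : ∀ z : E, (FinitePlace.mk Q).1 z = 1 → (σ z / z) ^ N = 1 → σ z = z := by
      intro z hz hzN
      have hz0 : z ≠ 0 := by
        intro h
        rw [h, map_zero] at hz
        exact zero_ne_one hz
      by_contra hne
      have h3 : σ z / z ≠ 1 := fun h => hne ((div_eq_one_iff_eq hz0).1 h)
      have h4 := hroot (σ z / z) N h3 hpN hzN
      have h5 := inert Q hna σ hσ' z hz.le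
      have h6 : σ z / z - 1 = (σ z - z) / z := by
        field_simp
      rw [h6, map_div₀, hz, div_one] at h4
      exact absurd h4 h5.ne
    have hfix : ∀ z : E, z ∈ IntermediateField.adjoin F {z : E | z ^ N = 1 ∨
        ∃ i, z ^ K = algebraMap F E (γ i)} → σ z = z := by
      intro z hz
      refine IntermediateField.adjoin_induction F (p := fun z _ => σ z = z) ?_ ?_ ?_ ?_ ?_ hz
      · intro a ha
        rcases ha with ha | ⟨i, ha⟩
        · refine key a ?_ ?_
          · have h3 : (FinitePlace.mk Q).1 a ^ N = 1 := by rw [← map_pow, ha, map_one]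
            exact (pow_eq_one_iff_of_nonneg (AbsoluteValue.nonneg _ _) hN.ne').1 h3
          · rw [div_pow, ← map_pow, ha, map_one, div_one]
        · have h4 : (FinitePlace.mk Q).1 (algebraMap F E (γ i)) = 1 := by
            rw [hvk, hγ i, Real.one_rpow]
          have h5 : algebraMap F E (γ i) ≠ 0 := by
            intro h
            rw [h, map_zero] at h4
            exact zero_ne_one h4
          refine key a ?_ ?_
          · have h3 : (FinitePlace.mk Q).1 a ^ K = 1 := by rw [← map_pow, ha, h4]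
            exact (pow_eq_one_iff_of_nonneg (AbsoluteValue.nonneg _ _) hK.ne').1 h3
          · obtain ⟨m, rfl⟩ := hKN
            rw [pow_mul, div_pow, ← map_pow, ha, AlgEquiv.commutes, div_self h5, one_pow]
      · intro a
        exact σ.commutes a
      · intro a b _ _ ha hb
        rw [map_add, ha, hb]
      · intro a _ ha
        rw [map_inv₀, ha]
      · intro a b _ _ ha hb
        rw [map_mul, ha, hb]
    ext z
    exact hfix z (by rw [hadj]; exact IntermediateField.mem_top)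
  have hover : Q.asIdeal.LiesOver (Q.under (𝓞 F)).asIdeal := Ideal.over_under Q.asIdeal
  have hram : (Q.under (𝓞 F)).asIdeal.ramificationIdx' Q.asIdeal = 1 := by
    rw [Ideal.card_inertia_eq_ramificationIdxIn (R := 𝓞 F) (G := Gal(E/F))
      (Q.under (𝓞 F)).asIdeal Q.asIdeal] at hin
    rw [Ideal.ramificationIdxIn_eq_ramificationIdx (Q.under (𝓞 F)).asIdeal Q.asIdeal
      Gal(E/F)] at hin
    rw [Ideal.ramificationIdx'_eq_ramificationIdx _ _ (Q.under (𝓞 F)).ne_bot, hin]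
  obtain ⟨ϖ, hϖ⟩ := (Q.under (𝓞 F)).valuation_exists_uniformizer F
  have hϖ' : Q.valuation E (algebraMap F E ϖ) = WithZero.exp (-1 : ℤ) := by
    rw [← valuation_liesOver E (Q.under (𝓞 F)) Q ϖ, hram, pow_one, hϖ]
  have hϖ0 : ϖ ≠ 0 := by
    intro h
    rw [h, map_zero] at hϖ
    exact WithZero.exp_ne_zero hϖ.symm
  obtain ⟨n, hn⟩ := hval ϖ hϖ0
  have hvϖ : (FinitePlace.mk Q).1 (algebraMap F E ϖ) = (FinitePlace.mk Q).1 (p : E) ^ n := by
    rw [hvk, hn, hpF, zpow_rpow' hp0F]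
  have hx' : Q.valuation E x ≠ 0 := (Valuation.ne_zero_iff _).2 hx
  obtain ⟨m, hm⟩ : ∃ m : ℤ, Q.valuation E x = WithZero.exp m :=
    ⟨WithZero.log (Q.valuation E x), (WithZero.exp_log hx').symm⟩
  have h7 : Q.valuation E x = Q.valuation E (algebraMap F E ϖ ^ (-m)) := by
    rw [map_zpow₀, hϖ', hm, ← WithZero.exp_zsmul]
    congr 1
    simp
  refine ⟨n * -m, ?_⟩
  rw [zpow_mul, ← hvϖ, ← map_zpow₀, abv_eq, abv_eq, h7]

/-- UNK: a good prime which does not divide the level is unramified in the level field -/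
theorem pf_UNK (h1 : T_VB) (h2 : T_RS) (h3 : T_LVB) : T_UNK := by
  intro F Ω _ _ _ _ _ _ _ r γ hγ p hp N K hN hKN hpN M _ hEM w hw x hx hx0
  have hK : 0 < K := Nat.pos_of_dvd_of_pos hKN hN
  obtain ⟨hfd, hgal, -, -, hadj, -⟩ := h3 F Ω r γ hγ N K hN hK
  have hnf : NumberField (Lv F Ω γ N K) := NumberField.of_module_finite F _
  let _ : Algebra (Lv F Ω γ N K) M := (IntermediateField.inclusion hEM).toRingHom.toAlgebra
  obtain ⟨v, k, hk, hv⟩ := h2 (Lv F Ω γ N K) M w
  have hpv : w.1 (p : M) = v.1 (p : Lv F Ω γ N K) ^ k := by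
    rw [← hv, map_natCast (algebraMap (Lv F Ω γ N K) M)]
  have hv1 : v.1 (p : Lv F Ω γ N K) < 1 := by
    by_contra hcon
    rw [hpv] at hw
    exact absurd hw (not_lt.2 (Real.one_le_rpow (not_lt.1 hcon) hk.le))
  have hp0 : 0 < v.1 (p : Lv F Ω γ N K) := by
    refine v.1.pos ?_
    exact_mod_cast hp.1.ne_zero
  obtain ⟨n, hn⟩ := core h1 h2 F (Lv F Ω γ N K) r γ p hp N K hN hKN hpN hadj v hv1 ⟨(x : Ω), hx⟩
    (fun h => hx0 (Subtype.ext (show (x : Ω) = 0 from
      congrArg (fun t : Lv F Ω γ N K => (t : Ω)) h)))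
  refine ⟨n, ?_⟩
  have e : algebraMap (Lv F Ω γ N K) M ⟨(x : Ω), hx⟩ = x := Subtype.ext rfl
  rw [← e, hv, hn, hpv, zpow_rpow' hp0]

end Pool.Agent.H17.LG
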